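import Mathlib
import Pool.Agent.N290.RJ.Defs
import Pool.Agent.N290.RJ.Stm
import Pool.Agent.N290.RJ.Un

/-!
# Project RJ (helper290), part S4 (helper87): second derivatives along rays
-/

set_option autoImplicit false

open Complex MeasureTheory Set Filter Topology

namespace Pool.Agent.N87.RJ

open Pool.Agent.N290.RJ

variable {d : ℕ}

theorem ip_smulc_right (t : ℂ) (z w : E d) : ip z (t • w) = starRingEnd ℂ t * ip z w := by
  rw [← ip_conj, ip_smul_left, map_mul, ip_conj]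

theorem smul_real (t : ℝ) (z : E d) : t • z = (t : ℂ) • z := by
  ext <;> simp

theorem N_add_le (z w : E d) : N (z + w) ≤ 2 * N z + 2 * N w := by
  have h1 := N_add z w
  have h2 := N_add z (-w)
  have h3 : N (-w) = N w := by
    have : -w = (-1 : ℝ) • w := by simp
    rw [this, N_smul]; norm_num
  have h4 : (ip z (-w)).re = - (ip z w).re := by
    have : -w = (-1 : ℂ) • w := by simp
    rw [this, ip_smulc_right]; simp
  have h5 := N_nonneg (z + -w)
  rw [h2, h3, h4] at h5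
  linarith

/-- the bound for `|N (t (z + lam ξ)) - N (t z)|` -/
theorem N_near (z ξ : E d) (t : ℝ) (ht : 0 ≤ t) (ht1 : t ≤ 1) (lam : ℂ) (l : ℝ) (hl : 0 ≤ l)
    (ha : 0 < 1 - N (t • z)) (hlen : len2 (t • z) ξ ≤ l ^ 2) (hlam : 5 * (‖lam‖ * l) ≤ 1) :
    |N (t • (z + lam • ξ)) - N (t • z)| ≤ (1 - N (t • z)) / 2 := by
  obtain ⟨a, haa⟩ : ∃ a, a = 1 - N (t • z) := ⟨_, rfl⟩
  rw [← haa] at ha ⊢
  have hN : N ξ ≤ a * l ^ 2 := by
    unfold len2 at hlen
    rw [← haa] at hlen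
    have h1 : N ξ / a ≤ l ^ 2 := by
      have : 0 ≤ ‖ip ξ (t • z)‖ ^ 2 / a ^ 2 := by positivity
      linarith
    rw [div_le_iff₀ ha] at h1
    linarith
  have hI : ‖ip ξ (t • z)‖ ≤ a * l := by
    unfold len2 at hlen
    rw [← haa] at hlen
    have h1 : ‖ip ξ (t • z)‖ ^ 2 / a ^ 2 ≤ l ^ 2 := by
      have : 0 ≤ N ξ / a := div_nonneg (N_nonneg _) ha.le
      linarith
    rw [div_le_iff₀ (by positivity)] at h1
    have h2 : ‖ip ξ (t • z)‖ ^ 2 ≤ (a * l) ^ 2 := by nlinarith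
    exact (pow_le_pow_iff_left₀ (norm_nonneg _) (by positivity) two_ne_zero).1 h2
  have e1 : t • (z + lam • ξ) = t • z + ((t : ℂ) * lam) • ξ := by
    rw [smul_add, smul_real t (lam • ξ), smul_smul]
  rw [e1, N_add, N_smulc, ip_smulc_right]
  have h2 : |(starRingEnd ℂ ((t : ℂ) * lam) * ip (t • z) ξ).re| ≤ ‖lam‖ * (a * l) := by
    refine (Complex.abs_re_le_norm _).trans ?_
    rw [norm_mul, RCLike.norm_conj, norm_mul, Complex.norm_real, Real.norm_eq_abs, abs_of_nonneg ht]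
    have h3 : ‖ip (t • z) ξ‖ = ‖ip ξ (t • z)‖ := by
      rw [← ip_conj, RCLike.norm_conj]
    rw [h3]
    have h4 : t * ‖lam‖ ≤ ‖lam‖ := mul_le_of_le_one_left (norm_nonneg _) ht1
    exact mul_le_mul h4 hI (norm_nonneg _) (norm_nonneg _)
  have h5 : ‖(t : ℂ) * lam‖ ^ 2 * N ξ ≤ ‖lam‖ ^ 2 * (a * l ^ 2) := by
    rw [norm_mul, Complex.norm_real, Real.norm_eq_abs, abs_of_nonneg ht]
    have h4 : t * ‖lam‖ ≤ ‖lam‖ := mul_le_of_le_one_left (norm_nonneg _) ht1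
    have h6 : 0 ≤ t * ‖lam‖ := by positivity
    exact mul_le_mul (pow_le_pow_left₀ h6 h4 2) hN (N_nonneg _) (by positivity)
  have h7 : 0 ≤ ‖(t : ℂ) * lam‖ ^ 2 * N ξ := mul_nonneg (by positivity) (N_nonneg _)
  obtain ⟨x, hx⟩ : ∃ x, x = ‖lam‖ * l := ⟨_, rfl⟩
  have hx0 : 0 ≤ x := by rw [hx]; positivity
  have h8 : ‖lam‖ * (a * l) = a * x := by rw [hx]; ring
  have h9 : ‖lam‖ ^ 2 * (a * l ^ 2) = a * x ^ 2 := by rw [hx]; ring
  rw [h8] at h2
  rw [h9] at h5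
  rw [← hx] at hlam
  have h10 : x ≤ 1 / 5 := by linarith
  have h11 : x ^ 2 ≤ 1 / 25 := by nlinarith
  rw [abs_le] at h2 ⊢
  have h12 : a * x ≤ a * (1 / 5) := mul_le_mul_of_nonneg_left h10 ha.le
  have h13 : a * x ^ 2 ≤ a * (1 / 25) := mul_le_mul_of_nonneg_left h11 ha.le
  constructor
  · linarith [h2.1]
  · linarith [h2.2]

/-- monotonicity of the length along rays -/
theorem len2_mono {z : E d} (hz : z ∈ B d) (ξ : E d) {s t : ℝ} (hs : 0 ≤ s) (hst : s ≤ t)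
    (ht : t ≤ 1) : len2 (s • z) ξ ≤ len2 (t • z) ξ := by
  have hN : N z < 1 := hz
  have hN0 := N_nonneg z
  have hst2 : s ^ 2 ≤ t ^ 2 := pow_le_pow_left₀ hs hst 2
  have ht2 : t ^ 2 ≤ 1 := pow_le_one₀ (hs.trans hst) ht
  have ha : 0 < 1 - N (t • z) := by
    rw [N_smul]; nlinarith
  have hb : 1 - N (t • z) ≤ 1 - N (s • z) := by
    rw [N_smul, N_smul]; nlinarith
  have hip : ∀ r : ℝ, ‖ip ξ (r • z)‖ ^ 2 = r ^ 2 * ‖ip ξ z‖ ^ 2 := by
    intro r
    rw [smul_real, ip_smulc_right, norm_mul, RCLike.norm_conj, Complex.norm_real, mul_pow,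
      Real.norm_eq_abs, sq_abs]
  unfold len2
  rw [hip, hip]
  apply add_le_add
  · exact div_le_div_of_nonneg_left (N_nonneg _) ha hb
  · apply div_le_div₀ (by positivity) (mul_le_mul_of_nonneg_right hst2 (by positivity))
      (by positivity)
    exact pow_le_pow_left₀ ha.le hb 2

/-- the length of the radial vector -/
theorem len_radial (w : E d) (t : ℝ) (h : 0 < 1 - N (t • w)) :
    len (t • w) w = nm w / (1 - N (t • w)) := by
  have h1 : len2 (t • w) w = N w / (1 - N (t • w)) ^ 2 := by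
    unfold len2
    have hip : ‖ip w (t • w)‖ ^ 2 = t ^ 2 * N w ^ 2 := by
      rw [smul_real, ip_smulc_right, norm_mul, RCLike.norm_conj, Complex.norm_real, mul_pow,
        Real.norm_eq_abs, sq_abs, ip_self, Complex.norm_real, Real.norm_eq_abs, sq_abs]
    rw [hip]
    have h2 : N (t • w) = t ^ 2 * N w := N_smul t w
    rw [h2] at h ⊢
    field_simp
    ring
  unfold len nm
  rw [h1, Real.sqrt_div (N_nonneg _), Real.sqrt_sq h.le]

theorem omega_le {K : ℝ} (hK : 1 ≤ K) {ω : ℝ → ℝ} (hω : Slow K ω) {s t : ℝ} (ht : 0 < t)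
    (hs1 : s ≤ 1) (hst : s ≤ 3 * t) : ω s ≤ 3 * K * ω t := by
  obtain ⟨hm, h01, hsl⟩ := hω
  have h0 : 0 ≤ ω t := (h01 t).1
  rcases le_total s t with h | h
  · have := hm h
    nlinarith
  · have h1 := hsl s t ht h hs1
    have h2 : (s / t) ^ (1 / 8 : ℝ) ≤ 3 := by
      have h3 : s / t ≤ 3 := by rw [div_le_iff₀ ht]; exact hst
      have h4 : 1 ≤ s / t := by rw [le_div_iff₀ ht]; linarith
      calc (s / t) ^ (1 / 8 : ℝ) ≤ (s / t) ^ (1 : ℝ) :=
            Real.rpow_le_rpow_of_exponent_le h4 (by norm_num)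
        _ = s / t := Real.rpow_one _
        _ ≤ 3 := h3
    refine h1.trans ?_
    have h5 : K * (s / t) ^ (1 / 8 : ℝ) ≤ 3 * K := by nlinarith
    exact mul_le_mul_of_nonneg_right h5 h0

theorem eq_zero_of_N {ξ : E d} (h : N ξ = 0) : ξ = 0 := by
  unfold N at h
  have h1 : 0 ≤ ∑ i, ‖ξ.2 i‖ ^ 2 := Finset.sum_nonneg fun i _ => by positivity
  have h2 : ‖ξ.1‖ ^ 2 = 0 := by
    have : 0 ≤ ‖ξ.1‖ ^ 2 := by positivity
    linarith
  have h3 : ∑ i, ‖ξ.2 i‖ ^ 2 = 0 := by linarith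
  rw [Finset.sum_eq_zero_iff_of_nonneg fun i _ => by positivity] at h3
  refine Prod.ext ?_ ?_
  · exact norm_eq_zero.1 ((pow_eq_zero_iff two_ne_zero).1 h2)
  · funext i
    exact norm_eq_zero.1 ((pow_eq_zero_iff two_ne_zero).1 (h3 i (Finset.mem_univ i)))

/-- the geometry of the rays -/
theorem geo {z : E d} (hz : z ∈ B d) {t0 t1 : ℝ} (h0 : 0 ≤ t0) (h01 : t0 ≤ t1) (h1 : t1 < 1)
    (hd : t1 - t0 ≤ 1 - t1) {ξ : E d} (hl : 0 < len (t1 • z) ξ) {lam : ℂ}
    (hlam : ‖lam‖ ≤ 1 / (5 * len (t1 • z) ξ)) {t : ℝ} (ht0 : t0 ≤ t) (ht1 : t ≤ t1) :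
    (1 - N (t1 • z)) / 2 ≤ 1 - N (t • (z + lam • ξ)) ∧
    1 - N (t • (z + lam • ξ)) ≤ 3 * (1 - N (t1 • z)) := by
  have hN : N z < 1 := hz
  have hN0 := N_nonneg z
  have ht : 0 ≤ t := h0.trans ht0
  have htt : t ^ 2 ≤ t1 ^ 2 := pow_le_pow_left₀ ht ht1 2
  have ht2 : t1 ^ 2 ≤ 1 := pow_le_one₀ (ht.trans ht1) h1.le
  have ha1 : 0 < 1 - N (t1 • z) := by
    rw [N_smul]; nlinarith
  have hb : 1 - N (t1 • z) ≤ 1 - N (t • z) := by
    rw [N_smul, N_smul]; nlinarith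
  have hc : 1 - N (t • z) ≤ 2 * (1 - N (t1 • z)) := by
    rw [N_smul, N_smul, ← nm_sq]
    obtain ⟨n, hn⟩ : ∃ n, n = nm z := ⟨_, rfl⟩
    have hn0 : 0 ≤ n := hn ▸ nm_nonneg z
    have hn1 : n < 1 := hn ▸ (mem_B_nm.1 hz)
    rw [← hn]
    have e1 : 1 - t ^ 2 * n ^ 2 = (1 - t * n) * (1 + t * n) := by ring
    have e2 : 2 * (1 - t1 ^ 2 * n ^ 2) = (2 * (1 - t1 * n)) * (1 + t1 * n) := by ring
    rw [e1, e2]
    have h3 : 1 - t * n ≤ 2 * (1 - t1 * n) := by nlinarith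
    have h4 : 1 + t * n ≤ 1 + t1 * n := by nlinarith
    have h5 : 0 ≤ 2 * (1 - t1 * n) := by nlinarith
    exact mul_le_mul h3 h4 (by positivity) h5
  have hlen : len2 (t • z) ξ ≤ len (t1 • z) ξ ^ 2 := by
    have h3 : t1 • z ∈ B d := smul_mem_B hz (ht.trans ht1) h1.le
    rw [len_sq h3]
    exact len2_mono hz ξ ht ht1 h1.le
  have hlam' : 5 * (‖lam‖ * len (t1 • z) ξ) ≤ 1 := by
    rw [le_div_iff₀ (by positivity)] at hlam
    linarith
  have h5 := N_near z ξ t ht (ht1.trans h1.le) lam _ hl.le (ha1.trans_le hb) hlen hlam'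
  rw [abs_le] at h5
  constructor
  · linarith [h5.2]
  · linarith [h5.1]

theorem t_S4 (d : ℕ) : S4 d := by
  intro K hK
  refine ⟨60 * K, by positivity, ?_⟩
  intro f ω hf hω hfω z hz t0 t1 h0 h01 h1 hd ξ
  obtain ⟨n, hn⟩ : ∃ n, n = nm z := ⟨_, rfl⟩
  have hn0 : 0 ≤ n := hn ▸ nm_nonneg z
  have hn1 : n < 1 := hn ▸ (mem_B_nm.1 hz)
  have hz1 : t1 • z ∈ B d := smul_mem_B hz (h0.trans h01) h1.le
  have ha1 : 0 < 1 - N (t1 • z) := sub_pos.2 hz1
  have hω0 : 0 ≤ ω (1 - N (t1 • z)) := (hω.2.1 _).1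
  have htn : 0 < 1 - t1 * n := by nlinarith
  rw [← hn]
  rcases (len_nonneg (t1 • z) ξ).eq_or_lt with hl | hl
  · -- trivial case
    have h2 : len2 (t1 • z) ξ = 0 := by
      rw [← len_sq hz1, ← hl]; norm_num
    have h3 : N ξ = 0 := by
      unfold len2 at h2
      have h4 : 0 ≤ ‖ip ξ (t1 • z)‖ ^ 2 / (1 - N (t1 • z)) ^ 2 := by positivity
      have h5 : N ξ / (1 - N (t1 • z)) ≤ 0 := by linarith
      rw [div_le_iff₀ ha1, zero_mul] at h5
      exact le_antisymm h5 (N_nonneg _)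
    have h4 : ξ = 0 := eq_zero_of_N h3
    rw [← hl, h4]
    simp
  obtain ⟨l, hll⟩ : ∃ l, l = len (t1 • z) ξ := ⟨_, rfl⟩
  have hgeo := fun (lam : ℂ) (hlam : ‖lam‖ ≤ 1 / (5 * l)) (t : ℝ) (ht0 : t0 ≤ t) (ht1 : t ≤ t1) =>
    geo hz h0 h01 h1 hd hl (lam := lam) (by rw [← hll]; exact hlam) ht0 ht1
  rw [← hll] at hl ⊢
  have hmem : ∀ lam : ℂ, ‖lam‖ ≤ 1 / (5 * l) → ∀ t : ℝ, t0 ≤ t → t ≤ t1 →
      t • (z + lam • ξ) ∈ B d := by
    intro lam hlam t ht0 ht1
    have := (hgeo lam hlam t ht0 ht1).1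
    rw [mem_B]
    linarith
  have hR : 0 < 1 / (5 * l) := by positivity
  -- the function
  obtain ⟨G, hG⟩ : ∃ G : ℂ → ℂ, G = fun lam => f (t1 • (z + lam • ξ)) - f (t0 • (z + lam • ξ)) :=
    ⟨_, rfl⟩
  have hdf : ∀ w ∈ B d, DifferentiableAt ℂ f w := fun w hw =>
    hf.differentiableAt (B_open.mem_nhds hw)
  have hline : ∀ (t : ℝ) (lam : ℂ), HasDerivAt (fun lam : ℂ => t • (z + lam • ξ)) (t • ξ) lam := by
    intro t lam
    have h2 : HasDerivAt (fun lam : ℂ => z + lam • ξ) ((1 : ℂ) • ξ) lam :=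
      ((hasDerivAt_id lam).smul_const ξ).const_add z
    rw [one_smul] at h2
    exact h2.const_smul t
  have hder : ∀ (t : ℝ) (lam : ℂ), t • (z + lam • ξ) ∈ B d →
      HasDerivAt (fun lam : ℂ => f (t • (z + lam • ξ)))
        (fderiv ℂ f (t • (z + lam • ξ)) (t • ξ)) lam := by
    intro t lam h
    exact (hdf _ h).hasFDerivAt.comp_hasDerivAt lam (hline t lam)
  have hGd : deriv G 0 = fderiv ℂ f (t1 • z) (t1 • ξ) - fderiv ℂ f (t0 • z) (t0 • ξ) := by
    have h2 := hder t1 0 (hmem 0 (by rw [norm_zero]; exact hR.le) t1 h01 le_rfl)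
    have h3 := hder t0 0 (hmem 0 (by rw [norm_zero]; exact hR.le) t0 le_rfl h01)
    have h4 := (h2.sub h3).deriv
    rw [zero_smul, add_zero] at h4
    rw [hG, ← h4]
    rfl
  have hGdiff : DiffContOnCl ℂ G (Metric.ball 0 (1 / (5 * l))) := by
    have h2 : DifferentiableOn ℂ G (Metric.closedBall 0 (1 / (5 * l))) := by
      intro lam hlam
      rw [mem_closedBall_zero_iff] at hlam
      rw [hG]
      exact ((hder t1 lam (hmem lam hlam t1 h01 le_rfl)).sub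
        (hder t0 lam (hmem lam hlam t0 le_rfl h01))).differentiableAt.differentiableWithinAt
    exact h2.diffContOnCl_ball (subset_refl _)
  obtain ⟨M, hM⟩ : ∃ M, M = 12 * K * ω (1 - N (t1 • z)) / (1 - t1 * n) * (t1 - t0) := ⟨_, rfl⟩
  have hbound : ∀ lam ∈ Metric.sphere (0 : ℂ) (1 / (5 * l)), ‖G lam‖ ≤ M := by
    intro lam hlam
    rw [mem_sphere_zero_iff_norm] at hlam
    have hlam' := hlam.le
    obtain ⟨w, hw⟩ : ∃ w, w = z + lam • ξ := ⟨_, rfl⟩
    have hNw : N w ≤ 4 := by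
      have h2 := N_add_le z (lam • ξ)
      rw [← hw, N_smulc] at h2
      have h3 : N ξ ≤ l ^ 2 := by
        rw [hll, len_sq hz1]
        unfold len2
        have h4 : N ξ ≤ N ξ / (1 - N (t1 • z)) := by
          rw [le_div_iff₀ ha1]
          have := N_nonneg ξ
          have := N_nonneg (t1 • z)
          nlinarith
        have h5 : 0 ≤ ‖ip ξ (t1 • z)‖ ^ 2 / (1 - N (t1 • z)) ^ 2 := by positivity
        linarith
      have h4 : ‖lam‖ ^ 2 * N ξ ≤ 1 / 25 := by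
        rw [hlam]
        calc (1 / (5 * l)) ^ 2 * N ξ ≤ (1 / (5 * l)) ^ 2 * l ^ 2 :=
              mul_le_mul_of_nonneg_left h3 (by positivity)
          _ = 1 / 25 := by field_simp; norm_num
      have h5 : N z < 1 := hz
      linarith
    have hnmw : nm w ≤ 2 := by
      unfold nm
      rw [Real.sqrt_le_left (by norm_num)]
      linarith
    have hG2 : ‖G lam‖ ≤ (12 * K * ω (1 - N (t1 • z)) / (1 - t1 * n)) * ‖t1 - t0‖ := by
      rw [hG]
      change ‖f (t1 • (z + lam • ξ)) - f (t0 • (z + lam • ξ))‖ ≤ _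
      rw [← hw]
      refine Convex.norm_image_sub_le_of_norm_hasDerivWithin_le (𝕜 := ℝ)
        (f := fun t : ℝ => f (t • w)) (f' := fun t : ℝ => fderiv ℂ f (t • w) w)
        (s := Icc t0 t1) ?_ ?_ (convex_Icc _ _) ⟨le_rfl, h01⟩ ⟨h01, le_rfl⟩
      · intro t ht
        have h2 : t • w ∈ B d := by rw [hw]; exact hmem lam hlam' t ht.1 ht.2
        have h3 : HasDerivAt (fun t : ℝ => t • w) w t := by
          have := (hasDerivAt_id t).smul_const w
          rwa [one_smul] at this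
        exact (((hdf _ h2).hasFDerivAt.restrictScalars ℝ).comp_hasDerivAt t h3).hasDerivWithinAt
      · intro t ht
        have h2 : t • w ∈ B d := by rw [hw]; exact hmem lam hlam' t ht.1 ht.2
        have h3 := hgeo lam hlam' t ht.1 ht.2
        rw [← hw] at h3
        have hpos : 0 < 1 - N (t • w) := sub_pos.2 h2
        have h4 : ω (1 - N (t • w)) ≤ 3 * K * ω (1 - N (t1 • z)) :=
          omega_le hK hω ha1 (by have := N_nonneg (t • w); linarith) h3.2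
        have h5 : len (t • w) w ≤ 4 / (1 - t1 * n) := by
          rw [len_radial w t hpos, div_le_div_iff₀ hpos htn]
          have h6 : 1 - t1 * n ≤ 1 - N (t1 • z) := by
            rw [N_smul, ← nm_sq, ← hn]
            have h7 : 0 ≤ t1 * n := mul_nonneg (h0.trans h01) hn0
            have h8 : t1 * n ≤ 1 := by linarith
            nlinarith
          have h9 := nm_nonneg w
          nlinarith [h3.1]
        calc ‖fderiv ℂ f (t • w) w‖ ≤ ω (1 - N (t • w)) * len (t • w) w := hfω _ h2 w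
          _ ≤ (3 * K * ω (1 - N (t1 • z))) * (4 / (1 - t1 * n)) :=
              mul_le_mul h4 h5 (len_nonneg _ _) (by positivity)
          _ = 12 * K * ω (1 - N (t1 • z)) / (1 - t1 * n) := by ring
    rwa [Real.norm_eq_abs, abs_of_nonneg (sub_nonneg.2 h01), ← hM] at hG2
  have hfin := Complex.norm_deriv_le_of_forall_mem_sphere_norm_le hR hGdiff hbound
  rw [hGd] at hfin
  refine hfin.trans_eq ?_
  rw [hM]
  field_simp
  ring

end Pool.Agent.N87.RJ
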